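import Mathlib

/-!
# A distribution function whose growth is carried by digit-restricted numbers

For a base `b ≥ 4` let `A b` be the set of the real numbers `x` such that, for all large `m`,
`b ^ m * x` is up to an integer in the interval `[1 / (b - 1), 2 / (b - 1)]`.  We construct a
continuous strictly increasing function `F : ℝ → [0, 1]` such that the image `F '' A b` has full
measure in `[0, 1]`.
-/

set_option autoImplicit false
open MeasureTheory Set Filter Topology

namespace Pool.Agent.X160.Af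

/-! ### General facts on measures without atoms -/

theorem continuous_cdf (μ : Measure ℝ) [IsProbabilityMeasure μ] (h : ∀ x, μ {x} = 0) :
    Continuous (ProbabilityTheory.cdf μ) := by
  rw [continuous_iff_continuousAt]
  intro x
  have hm := (ProbabilityTheory.monotone_cdf μ)
  rw [hm.continuousAt_iff_leftLim_eq_rightLim]
  have h1 : (ProbabilityTheory.cdf μ).measure {x} = 0 := by
    rw [ProbabilityTheory.measure_cdf]; exact h x
  rw [StieltjesFunction.measure_singleton, ENNReal.ofReal_eq_zero] at h1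
  have h2 := hm.leftLim_le (le_refl x)
  rw [StieltjesFunction.rightLim_eq]
  linarith

theorem exists_subset_measure_eq {α : Type*} [MeasurableSpace α] [StandardBorelSpace α]
    (ν : Measure α) [IsFiniteMeasure ν] (hν : ∀ x, ν {x} = 0) (c : ENNReal) (hc : c ≤ ν univ) :
    ∃ s, MeasurableSet s ∧ ν s = c := by
  rcases eq_or_ne c 0 with h0 | h0
  · exact ⟨∅, MeasurableSet.empty, by simp [h0]⟩
  rcases eq_or_ne c (ν univ) with h1 | h1
  · exact ⟨univ, MeasurableSet.univ, h1.symm⟩
  have hlt : c < ν univ := lt_of_le_of_ne hc h1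
  have hu0 : ν univ ≠ 0 := (pos_of_gt hlt).ne'
  have hu1 : ν univ ≠ ⊤ := measure_ne_top _ _
  haveI : NeZero ν := ⟨fun h => hu0 (by simp [h])⟩
  obtain ⟨f, hf⟩ := exists_measurableEmbedding_real α
  haveI hP : IsProbabilityMeasure (((ν univ)⁻¹ • ν).map f) :=
    Measure.isProbabilityMeasure_map hf.measurable.aemeasurable
  set μ : Measure ℝ := ((ν univ)⁻¹ • ν).map f with hμ
  have hμa : ∀ x, μ {x} = 0 := by
    intro x
    rw [hμ, hf.map_apply, Measure.smul_apply, smul_eq_mul]
    have hs : (f ⁻¹' {x}).Subsingleton := by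
      intro a ha b hb
      exact hf.injective (by rw [mem_preimage, mem_singleton_iff] at ha hb; rw [ha, hb])
    rcases hs.eq_empty_or_singleton with h | ⟨a, h⟩
    · rw [h]; simp
    · rw [h, hν a]; simp
  have hcont := continuous_cdf μ hμa
  set r : ℝ := (c / ν univ).toReal with hr
  have hq1 : c / ν univ < 1 := by
    rw [ENNReal.div_lt_iff (Or.inl hu0) (Or.inl hu1)]; simpa using hlt
  have hq0 : c / ν univ ≠ 0 := by
    rw [Ne, ENNReal.div_eq_zero_iff]; push Not; exact ⟨h0, hu1⟩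
  have hr0 : 0 < r := ENNReal.toReal_pos hq0 (hq1.trans ENNReal.one_lt_top).ne
  have hr1 : r < 1 := by
    have := (ENNReal.toReal_lt_toReal (hq1.trans ENNReal.one_lt_top).ne ENNReal.one_ne_top).2 hq1
    rwa [ENNReal.toReal_one] at this
  have ha : ∃ a, ProbabilityTheory.cdf μ a ≤ r := by
    obtain ⟨a, ha⟩ := ((ProbabilityTheory.tendsto_cdf_atBot μ).eventually
      (gt_mem_nhds hr0)).exists
    exact ⟨a, ha.le⟩
  have hb : ∃ a, r ≤ ProbabilityTheory.cdf μ a := by
    obtain ⟨a, ha⟩ := ((ProbabilityTheory.tendsto_cdf_atTop μ).eventually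
      (lt_mem_nhds hr1)).exists
    exact ⟨a, ha.le⟩
  obtain ⟨t, ht⟩ := mem_range_of_exists_le_of_exists_ge hcont ha hb
  refine ⟨f ⁻¹' Iic t, hf.measurable measurableSet_Iic, ?_⟩
  have h3 : μ (Iic t) = c / ν univ := by
    rw [← ProbabilityTheory.ofReal_cdf, ht, hr,
      ENNReal.ofReal_toReal (hq1.trans ENNReal.one_lt_top).ne]
  rw [hμ, hf.map_apply, Measure.smul_apply, smul_eq_mul] at h3
  have h4 : ν univ * ((ν univ)⁻¹ * ν (f ⁻¹' Iic t)) = ν univ * (c / ν univ) := by rw [h3]
  rw [← mul_assoc, ENNReal.mul_inv_cancel hu0 hu1, one_mul, ENNReal.mul_div_cancel hu0 hu1] at h4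
  exact h4

/-! ### The digit-restricted numbers -/

/-- The numbers `x` such that `b ^ m * x` is up to an integer in `[1 / (b - 1), 2 / (b - 1)]` for
all large `m`. -/
def A (b : ℕ) : Set ℝ :=
  ⋃ M : ℕ, ⋂ m : ℕ, ⋂ (_ : M ≤ m), ⋃ z : ℤ,
    {x : ℝ | (b : ℝ) ^ m * x - z ∈ Icc (1 / ((b : ℝ) - 1)) (2 / ((b : ℝ) - 1))}

theorem mem_A {b : ℕ} {x : ℝ} : x ∈ A b ↔ ∃ M : ℕ, ∀ m, M ≤ m → ∃ z : ℤ,
    (b : ℝ) ^ m * x - z ∈ Icc (1 / ((b : ℝ) - 1)) (2 / ((b : ℝ) - 1)) := by
  simp [A]

theorem measurableSet_A (b : ℕ) : MeasurableSet (A b) := by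
  refine MeasurableSet.iUnion fun M => MeasurableSet.iInter fun m => MeasurableSet.iInter
    fun _ => MeasurableSet.iUnion fun z => ?_
  exact measurableSet_preimage (by fun_prop) measurableSet_Icc

/-- Sums of at most `(b - 2) / 2` elements of `A b` are not zero. -/
theorem sum_ne_zero {n b : ℕ} (hn : 1 ≤ n) (hb : 2 * n + 2 ≤ b) (y : Fin n → ℝ)
    (hy : ∀ i, y i ∈ A b) : ∑ i, y i ≠ 0 := by
  intro h0
  choose M hM using fun i => mem_A.1 (hy i)
  obtain ⟨m, hm⟩ : ∃ m, ∀ i, M i ≤ m := ⟨∑ i, M i, fun i =>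
    Finset.single_le_sum (f := M) (fun j _ => Nat.zero_le _) (Finset.mem_univ i)⟩
  choose z hz using fun i => hM i m (hm i)
  have hb1 : (0 : ℝ) < (b : ℝ) - 1 := by
    have : (2 : ℝ) ≤ b := by exact_mod_cast (by omega : 2 ≤ b)
    linarith
  have h1 : ∑ i, ((b : ℝ) ^ m * y i - z i) = -((∑ i, z i : ℤ) : ℝ) := by
    rw [Finset.sum_sub_distrib, ← Finset.mul_sum, h0]
    push_cast; ring
  have h2 : (0 : ℝ) < ∑ i, ((b : ℝ) ^ m * y i - z i) := by
    haveI : Nonempty (Fin n) := ⟨⟨0, by omega⟩⟩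
    refine Finset.sum_pos (fun i _ => ?_) Finset.univ_nonempty
    exact lt_of_lt_of_le (by positivity) (hz i).1
  have h3 : ∑ i, ((b : ℝ) ^ m * y i - z i) < 1 := by
    have : ∑ i, ((b : ℝ) ^ m * y i - z i) ≤ ∑ _i : Fin n, 2 / ((b : ℝ) - 1) :=
      Finset.sum_le_sum fun i _ => (hz i).2
    refine lt_of_le_of_lt this ?_
    rw [Finset.sum_const, Finset.card_univ, Fintype.card_fin, nsmul_eq_mul, ← mul_div_assoc,
      div_lt_one hb1]
    have : (2 * n + 2 : ℝ) ≤ b := by exact_mod_cast hb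
    linarith
  rw [h1] at h2 h3
  have h4 : (0 : ℤ) < -(∑ i, z i) := by exact_mod_cast h2
  have h5 : -(∑ i, z i) < (1 : ℤ) := by exact_mod_cast h3
  omega

/-! ### A measure carried by these numbers -/

/-- The number with the digits `1 + ω_m` in base `b`. -/
noncomputable def kap (b : ℕ) (ω : ℕ → Bool) : ℝ :=
  1 / ((b : ℝ) - 1) + (b : ℝ)⁻¹ * Cardinal.cantorFunction (b : ℝ)⁻¹ ω

variable {b : ℕ}

theorem inv_pos' (hb : 4 ≤ b) : (0 : ℝ) < (b : ℝ)⁻¹ := by
  have : (0 : ℝ) < b := by exact_mod_cast (by omega : 0 < b)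
  positivity

theorem inv_lt' (hb : 4 ≤ b) : (b : ℝ)⁻¹ < 1 / 2 := by
  have : (4 : ℝ) ≤ b := by exact_mod_cast hb
  rw [one_div]
  exact inv_strictAnti₀ (by norm_num) (by linarith)

theorem cantor_mem (hb : 4 ≤ b) (ω : ℕ → Bool) :
    Cardinal.cantorFunction (b : ℝ)⁻¹ ω ∈ Icc 0 ((b : ℝ) / ((b : ℝ) - 1)) := by
  have h0 := (inv_pos' hb).le
  have h1 : (b : ℝ)⁻¹ < 1 := (inv_lt' hb).trans (by norm_num)
  have hb' : (4 : ℝ) ≤ b := by exact_mod_cast hb
  constructor
  · exact tsum_nonneg fun n => Cardinal.cantorFunctionAux_nonneg h0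
  · have h2 := Cardinal.cantorFunction_le (f := ω) (g := fun _ => true) h0 h1 (fun n _ => rfl)
    refine h2.trans (le_of_eq ?_)
    have h3 : Cardinal.cantorFunction (b : ℝ)⁻¹ (fun _ => true) = ∑' n : ℕ, ((b : ℝ)⁻¹) ^ n := by
      unfold Cardinal.cantorFunction
      exact tsum_congr fun n => Cardinal.cantorFunctionAux_true rfl
    rw [h3, tsum_geometric_of_lt_one h0 h1]
    have h4 : (b : ℝ) ≠ 0 := by positivity
    have h5 : (b : ℝ) - 1 ≠ 0 := by linarith
    field_simp

theorem kap_mem (hb : 4 ≤ b) (ω : ℕ → Bool) :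
    kap b ω ∈ Icc (1 / ((b : ℝ) - 1)) (2 / ((b : ℝ) - 1)) := by
  have h := cantor_mem hb ω
  have hb' : (4 : ℝ) ≤ b := by exact_mod_cast hb
  have h4 : (b : ℝ) ≠ 0 := by positivity
  have h5 : (b : ℝ) - 1 ≠ 0 := by linarith
  unfold kap
  constructor
  · have := mul_nonneg (inv_pos' hb).le h.1
    linarith
  · have := mul_le_mul_of_nonneg_left h.2 (inv_pos' hb).le
    have h6 : (b : ℝ)⁻¹ * ((b : ℝ) / ((b : ℝ) - 1)) = 1 / ((b : ℝ) - 1) := by
      field_simp
    rw [h6] at this
    have h7 : (2 : ℝ) / ((b : ℝ) - 1) = 1 / ((b : ℝ) - 1) + 1 / ((b : ℝ) - 1) := by ring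
    rw [h7]; linarith

theorem kap_shift (hb : 4 ≤ b) (ω : ℕ → Bool) :
    ∃ z : ℤ, (b : ℝ) * kap b ω = z + kap b (fun n => ω (n + 1)) := by
  have h0 := (inv_pos' hb).le
  have h1 : (b : ℝ)⁻¹ < 1 := (inv_lt' hb).trans (by norm_num)
  have hb' : (4 : ℝ) ≤ b := by exact_mod_cast hb
  have h4 : (b : ℝ) ≠ 0 := by positivity
  have h5 : (b : ℝ) - 1 ≠ 0 := by linarith
  refine ⟨1 + cond (ω 0) 1 0, ?_⟩
  unfold kap
  rw [Cardinal.cantorFunction_succ ω h0 h1]
  have h6 : ((1 + cond (ω 0) 1 0 : ℤ) : ℝ) = 1 + cond (ω 0) 1 0 := by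
    cases ω 0 <;> norm_num
  rw [h6]
  field_simp
  ring

theorem kap_pow (hb : 4 ≤ b) (j : ℕ) : ∀ ω : ℕ → Bool,
    ∃ z : ℤ, (b : ℝ) ^ j * kap b ω - z ∈ Icc (1 / ((b : ℝ) - 1)) (2 / ((b : ℝ) - 1)) := by
  induction j with
  | zero => intro ω; exact ⟨0, by simpa using kap_mem hb ω⟩
  | succ j ih =>
    intro ω
    obtain ⟨z, hz⟩ := kap_shift hb ω
    obtain ⟨w, hw⟩ := ih (fun n => ω (n + 1))
    refine ⟨b ^ j * z + w, ?_⟩
    have : (b : ℝ) ^ (j + 1) * kap b ω - ((b ^ j * z + w : ℤ) : ℝ)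
        = (b : ℝ) ^ j * kap b (fun n => ω (n + 1)) - w := by
      rw [pow_succ, mul_assoc, hz]; push_cast; ring
    rw [this]; exact hw

theorem kap_injective (hb : 4 ≤ b) : Function.Injective (kap b) := by
  intro ω ω' h
  unfold kap at h
  have h1 : (b : ℝ)⁻¹ ≠ 0 := (inv_pos' hb).ne'
  exact Cardinal.cantorFunction_injective (inv_pos' hb) (inv_lt' hb)
    (mul_left_cancel₀ h1 (add_left_cancel h))

theorem measurable_kap (hb : 4 ≤ b) : Measurable (kap b) := by
  refine Measurable.const_add (Measurable.const_mul ?_ _) _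
  have h0 := (inv_pos' hb).le
  have h1 : (b : ℝ)⁻¹ < 1 := (inv_lt' hb).trans (by norm_num)
  refine Continuous.measurable ?_
  unfold Cardinal.cantorFunction
  refine continuous_tsum (u := fun n => ((b : ℝ)⁻¹) ^ n) (fun n => ?_)
    (summable_geometric_of_lt_one h0 h1) (fun n ω => ?_)
  · unfold Cardinal.cantorFunctionAux
    exact (continuous_of_discreteTopology (f := fun c : Bool => cond c (((b : ℝ)⁻¹) ^ n) 0)).comp
      (continuous_apply n)
  · rw [Real.norm_of_nonneg (Cardinal.cantorFunctionAux_nonneg h0)]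
    unfold Cardinal.cantorFunctionAux
    cases ω n
    · simp only [cond_false]; positivity
    · simp

theorem exists_measure (hb : 4 ≤ b) : ∃ μ : Measure ℝ, IsProbabilityMeasure μ ∧
    (∀ x, μ {x} = 0) ∧ (∀ x y : ℝ, x < y → 0 < μ (Ioo x y)) ∧ μ (A b)ᶜ = 0 := by
  have hb' : (4 : ℝ) ≤ b := by exact_mod_cast hb
  have hbpos : (0 : ℝ) < b := by linarith
  have hcount : ¬ Countable (ℕ → Bool) := by
    intro h
    obtain ⟨f, hf⟩ := h.exists_injective_nat
    have : Function.Injective (fun s : Set ℕ => f (fun n => @decide (n ∈ s) (Classical.dec _))) := by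
      intro s t hst
      have h1 := hf hst
      ext n
      have h2 := congrFun h1 n
      simpa using h2
    exact Function.cantor_injective _ this
  have hreal : ¬ Countable ℝ := by
    intro h
    exact Cardinal.not_countable_real (Set.countable_univ)
  set e : ℝ ≃ᵐ (ℕ → Bool) := PolishSpace.measurableEquivOfNotCountable hreal hcount
  obtain ⟨w, hw0, hwsum⟩ := ENNReal.exists_pos_sum_of_countable' (ε := 1) one_ne_zero (ℤ × ℕ)
  set φ : ℤ × ℕ → ℝ → ℝ := fun p u => ((p.1 : ℝ) + kap b (e u)) / (b : ℝ) ^ p.2 with hφ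
  have hφm : ∀ p, Measurable (φ p) := fun p =>
    ((((measurable_kap hb).comp e.measurable).const_add _).div_const _)
  have hφi : ∀ p, Function.Injective (φ p) := by
    intro p u v h
    have hp : (b : ℝ) ^ p.2 ≠ 0 := by positivity
    have h1 : (p.1 : ℝ) + kap b (e u) = (p.1 : ℝ) + kap b (e v) := by
      have := congrArg (fun t => t * (b : ℝ) ^ p.2) h
      simpa [hφ, div_mul_cancel₀ _ hp] using this
    exact e.injective (kap_injective hb (add_left_cancel h1))
  set ν : Measure ℝ := volume.restrict (Icc (0 : ℝ) 1) with hν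
  haveI : IsProbabilityMeasure ν := ⟨by simp [hν]⟩
  have hνa : ∀ x, ν {x} = 0 := by
    intro x
    exact le_antisymm ((Measure.restrict_apply_le _ _).trans (by simp)) bot_le
  set μ0 : Measure ℝ := Measure.sum fun p => w p • ν.map (φ p) with hμ0
  have hmap : ∀ p, (ν.map (φ p)) univ = 1 := by
    intro p
    rw [Measure.map_apply (hφm p) MeasurableSet.univ, preimage_univ, measure_univ]
  have htot : μ0 univ = ∑' p, w p := by
    rw [hμ0, Measure.sum_apply _ MeasurableSet.univ]
    exact tsum_congr fun p => by rw [Measure.smul_apply, hmap, smul_eq_mul, mul_one]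
  have htop : μ0 univ < ⊤ := by rw [htot]; exact hwsum.trans ENNReal.one_lt_top
  have hpos : 0 < μ0 univ := by
    rw [htot]
    exact lt_of_lt_of_le (hw0 (0, 0)) (ENNReal.le_tsum _)
  haveI : IsFiniteMeasure μ0 := ⟨htop⟩
  haveI : NeZero μ0 := ⟨fun h => hpos.ne' (by simp [h])⟩
  have hinv0 : (μ0 univ)⁻¹ ≠ 0 := ENNReal.inv_ne_zero.2 htop.ne
  refine ⟨(μ0 univ)⁻¹ • μ0, inferInstance, ?_, ?_, ?_⟩
  · intro x
    rw [Measure.smul_apply, smul_eq_mul]
    have : μ0 {x} = 0 := by
      rw [hμ0, Measure.sum_apply _ (measurableSet_singleton x)]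
      refine ENNReal.tsum_eq_zero.2 fun p => ?_
      rw [Measure.smul_apply, Measure.map_apply (hφm p) (measurableSet_singleton x)]
      have hs : (φ p ⁻¹' {x}).Subsingleton := by
        intro a ha c hc
        exact hφi p (by rw [mem_preimage, mem_singleton_iff] at ha hc; rw [ha, hc])
      rcases hs.eq_empty_or_singleton with h | ⟨a, h⟩
      · rw [h]; simp
      · rw [h, hνa a]; simp
    rw [this, mul_zero]
  · intro x y hxy
    rw [Measure.smul_apply, smul_eq_mul]
    refine ENNReal.mul_pos hinv0 ?_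
    -- choose `m`, `q` with `[q / b ^ m, (q + 1) / b ^ m] ⊆ (x, y)`
    obtain ⟨m, hm⟩ : ∃ m : ℕ, 2 / (y - x) < (b : ℝ) ^ m :=
      pow_unbounded_of_one_lt _ (by linarith)
    have hbm : (0 : ℝ) < (b : ℝ) ^ m := by positivity
    have hm' : 2 < (b : ℝ) ^ m * (y - x) := by
      rwa [div_lt_iff₀ (by linarith)] at hm
    set q : ℤ := ⌊(b : ℝ) ^ m * x⌋ + 1 with hq
    have hq1 : (b : ℝ) ^ m * x < q := by
      rw [hq]; push_cast; exact Int.lt_floor_add_one _
    have hq2 : (q : ℝ) ≤ (b : ℝ) ^ m * x + 1 := by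
      rw [hq]; push_cast; linarith [Int.floor_le ((b : ℝ) ^ m * x)]
    have hin : ∀ u, φ (q, m) u ∈ Ioo x y := by
      intro u
      have h := kap_mem hb (e u)
      have h1 : (0 : ℝ) < 1 / ((b : ℝ) - 1) := by
        have : (0 : ℝ) < (b : ℝ) - 1 := by linarith
        positivity
      have h2 : (2 : ℝ) / ((b : ℝ) - 1) ≤ 1 := by
        rw [div_le_one (by linarith)]; linarith
      constructor
      · simp only [hφ]
        rw [lt_div_iff₀ hbm]
        linarith [h.1]
      · simp only [hφ]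
        rw [div_lt_iff₀ hbm]
        nlinarith [h.2]
    have h3 : w (q, m) ≤ μ0 (Ioo x y) := by
      rw [hμ0, Measure.sum_apply _ measurableSet_Ioo]
      refine le_trans (le_of_eq ?_) (ENNReal.le_tsum (q, m))
      rw [Measure.smul_apply, Measure.map_apply (hφm _) measurableSet_Ioo]
      have : φ (q, m) ⁻¹' Ioo x y = univ := eq_univ_of_forall hin
      rw [this, measure_univ, smul_eq_mul, mul_one]
    exact (lt_of_lt_of_le (hw0 (q, m)) h3).ne'
  · rw [Measure.smul_apply, smul_eq_mul]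
    have : μ0 (A b)ᶜ = 0 := by
      rw [hμ0, Measure.sum_apply _ (measurableSet_A b).compl]
      refine ENNReal.tsum_eq_zero.2 fun p => ?_
      rw [Measure.smul_apply, Measure.map_apply (hφm p) (measurableSet_A b).compl]
      have : φ p ⁻¹' (A b)ᶜ = ∅ := by
        rw [eq_empty_iff_forall_notMem]
        intro u hu
        refine hu (mem_A.2 ⟨p.2, fun m hm => ?_⟩)
        obtain ⟨j, rfl⟩ := Nat.exists_eq_add_of_le hm
        obtain ⟨z, hz⟩ := kap_pow hb j (e u)
        refine ⟨b ^ j * p.1 + z, ?_⟩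
        have hp : (b : ℝ) ^ p.2 ≠ 0 := by positivity
        have h1 : (b : ℝ) ^ (p.2 + j) * φ p u - ((b ^ j * p.1 + z : ℤ) : ℝ)
            = (b : ℝ) ^ j * kap b (e u) - z := by
          simp only [hφ]
          rw [pow_add]
          push_cast
          field_simp
          ring
        rw [h1]; exact hz
      rw [this]; simp
    rw [this, mul_zero]

/-- The distribution function. -/
theorem exists_cdf (hb : 4 ≤ b) : ∃ F : ℝ → ℝ, StrictMono F ∧ Continuous F ∧
    (∀ x, F x ∈ Icc (0 : ℝ) 1) ∧ volume (Icc (0 : ℝ) 1 \ F '' A b) = 0 := by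
  obtain ⟨μ, hμ, hat, hfull, hA⟩ := exists_measure hb
  set F : ℝ → ℝ := fun x => ProbabilityTheory.cdf μ x with hF
  have hmono : StrictMono F := by
    intro x y hxy
    have h1 : μ (Iic x) + μ (Ioc x y) = μ (Iic y) := by
      rw [← measure_union (by
        rw [Set.disjoint_left]; intro a ha hb; exact absurd hb.1 (not_lt.2 ha)) measurableSet_Ioc,
        Iic_union_Ioc_eq_Iic hxy.le]
    have h2 : 0 < μ (Ioc x y) := lt_of_lt_of_le (hfull x y hxy) (measure_mono Ioo_subset_Ioc_self)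
    have h3 : μ (Iic x) < μ (Iic y) := by
      rw [← h1]
      exact ENNReal.lt_add_right (measure_ne_top _ _) h2.ne'
    have h4 := (ENNReal.toReal_lt_toReal (measure_ne_top _ _) (measure_ne_top _ _)).2 h3
    simp only [hF, ProbabilityTheory.cdf_eq_real]
    exact h4
  have hcont : Continuous F := continuous_cdf μ hat
  have h01 : ∀ x, F x ∈ Icc (0 : ℝ) 1 := fun x =>
    ⟨ProbabilityTheory.cdf_nonneg μ x, ProbabilityTheory.cdf_le_one μ x⟩
  refine ⟨F, hmono, hcont, h01, ?_⟩
  haveI : IsProbabilityMeasure (μ.map F) :=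
    Measure.isProbabilityMeasure_map hcont.measurable.aemeasurable
  haveI hpr : IsProbabilityMeasure (volume.restrict (Icc (0 : ℝ) 1)) := ⟨by simp⟩
  have hmap : μ.map F = volume.restrict (Icc (0 : ℝ) 1) := by
    refine Measure.ext_of_Iic _ _ fun t => ?_
    rw [Measure.map_apply hcont.measurable measurableSet_Iic,
      Measure.restrict_apply measurableSet_Iic]
    rcases le_or_gt t 0 with ht0 | ht0
    · have h1 : F ⁻¹' Iic t = ∅ := by
        rw [eq_empty_iff_forall_notMem]
        intro x hx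
        have h2 : F (x - 1) < F x := hmono (by linarith)
        have h3 : F x ≤ t := hx
        linarith [(h01 (x - 1)).1]
      rw [h1, measure_empty]
      symm
      refine measure_mono_null (t := {0}) ?_ (by simp)
      rintro x ⟨hx1, hx2⟩
      exact le_antisymm (hx1.trans ht0) hx2.1
    rcases lt_or_ge t 1 with ht1 | ht1
    · have ha : ∃ a, F a ≤ t := by
        obtain ⟨a, ha⟩ := ((ProbabilityTheory.tendsto_cdf_atBot μ).eventually
          (gt_mem_nhds ht0)).exists
        exact ⟨a, ha.le⟩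
      have hb : ∃ a, t ≤ F a := by
        obtain ⟨a, ha⟩ := ((ProbabilityTheory.tendsto_cdf_atTop μ).eventually
          (lt_mem_nhds ht1)).exists
        exact ⟨a, ha.le⟩
      obtain ⟨s, hs⟩ := mem_range_of_exists_le_of_exists_ge hcont ha hb
      have h1 : F ⁻¹' Iic t = Iic s := by
        ext x
        rw [mem_preimage, mem_Iic, mem_Iic, ← hs]
        exact hmono.le_iff_le
      have h2 : Iic t ∩ Icc 0 1 = Icc 0 t := by
        ext x
        simp only [mem_inter_iff, mem_Iic, mem_Icc]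
        constructor
        · rintro ⟨h1, h2, _⟩; exact ⟨h2, h1⟩
        · rintro ⟨h1, h2⟩; exact ⟨h2, h1, h2.trans ht1.le⟩
      rw [h1, h2, ← ProbabilityTheory.ofReal_cdf, Real.volume_Icc, sub_zero]
      congr 1
    · have h1 : F ⁻¹' Iic t = univ := eq_univ_of_forall fun x => (h01 x).2.trans ht1
      have h2 : Iic t ∩ Icc 0 1 = Icc 0 1 := by
        ext x
        simp only [mem_inter_iff, mem_Iic, mem_Icc]
        constructor
        · rintro ⟨_, h2⟩; exact h2
        · rintro h; exact ⟨h.2.trans ht1, h⟩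
      rw [h1, h2, measure_univ]; simp
  have himg : MeasurableSet (F '' A b) :=
    (measurableSet_A b).image_of_continuousOn_injOn hcont.continuousOn hmono.injective.injOn
  have h1 : (volume.restrict (Icc (0 : ℝ) 1)) (F '' A b)ᶜ = 0 := by
    rw [← hmap, Measure.map_apply hcont.measurable himg.compl]
    refine measure_mono_null ?_ hA
    intro x hx hxA
    exact hx (mem_image_of_mem F hxA)
  rw [Measure.restrict_apply himg.compl] at h1
  refine measure_mono_null ?_ h1
  rintro x ⟨hx1, hx2⟩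
  exact ⟨hx2, hx1⟩

end Pool.Agent.X160.Af
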