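import Pool.Agent.X160.Af.Cdf

/-!
# Antichains of the unit cube with the largest possible Hausdorff measure
-/

set_option autoImplicit false
open MeasureTheory Set Filter Topology
open scoped ENNReal NNReal

namespace Pool.Agent.X160.Af

/-- Euclidean space `ℝ ^ n`. -/
abbrev E (n : ℕ) : Type := EuclideanSpace ℝ (Fin n)

/-- `n`-cube antichains. -/
def IsCubeAntichain {n : ℕ} (S : Set (E n)) : Prop :=
  (∀ x ∈ S, ∀ i, x i ∈ Icc (0 : ℝ) 1) ∧ ∀ x ∈ S, ∀ y ∈ S, (∀ i, x i ≤ y i) → x = y

/-- The facet `x j = 0` of the unit cube. -/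
def facet {n : ℕ} (j : Fin n) : Set (E n) := {x | (∀ i, x i ∈ Icc (0 : ℝ) 1) ∧ x j = 0}

/-- The unit cube. -/
def cube (n : ℕ) : Set (E n) := {x | ∀ i, x i ∈ Icc (0 : ℝ) 1}

variable {m : ℕ}

/-! ### Facets -/

/-- The inclusion of `ℝ ^ m` as a coordinate hyperplane. -/
noncomputable def incl (j : Fin (m + 1)) (z : E m) : E (m + 1) :=
  WithLp.toLp 2 (j.insertNth (0 : ℝ) (fun i => z i))

theorem isometry_incl (j : Fin (m + 1)) : Isometry (incl j : E m → E (m + 1)) := by
  refine Isometry.of_dist_eq fun x y => ?_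
  rw [EuclideanSpace.dist_eq, EuclideanSpace.dist_eq, Fin.sum_univ_succAbove _ j]
  simp [incl]

theorem facet_eq (j : Fin (m + 1)) : facet j = incl j '' cube m := by
  ext x
  constructor
  · rintro ⟨h1, h2⟩
    refine ⟨WithLp.toLp 2 (fun i => x (j.succAbove i)), fun i => h1 _, ?_⟩
    ext k
    rcases Fin.eq_self_or_eq_succAbove j k with rfl | ⟨l, rfl⟩
    · simp [incl, h2]
    · simp [incl]
  · rintro ⟨z, hz, rfl⟩
    refine ⟨fun k => ?_, by simp [incl]⟩
    rcases Fin.eq_self_or_eq_succAbove j k with rfl | ⟨l, rfl⟩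
    · simp [incl]
    · simpa [incl] using hz l

theorem measure_facet (j : Fin (m + 1)) : μH[(m : ℝ)] (facet j) = μH[(m : ℝ)] (cube m) := by
  rw [facet_eq, (isometry_incl j).hausdorffMeasure_image (Or.inl (by positivity))]

/-! ### Antichains have finite measure -/

/-- Differences of coordinates. -/
def dif (x : E (m + 1)) : Fin m → ℝ := fun i => x i.succ - x 0

theorem coord_le {S : Set (E (m + 1))} (hS : IsCubeAntichain S) {x y : E (m + 1)} (hx : x ∈ S)
    (hy : y ∈ S) (k : Fin (m + 1)) : |x k - y k| ≤ 2 * dist (dif x) (dif y) := by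
  rcases eq_or_ne x y with rfl | hne
  · simp
  have h1 : ∃ i, y i < x i := by
    by_contra h
    push Not at h
    exact hne (hS.2 x hx y hy h)
  have h2 : ∃ i, x i < y i := by
    by_contra h
    push Not at h
    exact hne (hS.2 y hy x hx h).symm
  obtain ⟨i, hi⟩ := h1
  obtain ⟨j, hj⟩ := h2
  -- the differences from the coordinate `0`
  have key : ∀ l : Fin (m + 1), |(x l - y l) - (x 0 - y 0)| ≤ dist (dif x) (dif y) := by
    intro l
    rcases Fin.eq_zero_or_eq_succ l with rfl | ⟨l', rfl⟩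
    · simp
    · have := dist_le_pi_dist (dif x) (dif y) l'
      rw [Real.dist_eq] at this
      simp only [dif] at this
      have h3 : (x l'.succ - y l'.succ) - (x 0 - y 0) = x l'.succ - x 0 - (y l'.succ - y 0) := by
        ring
      rw [h3]; exact this
  have hk := abs_le.1 (key k)
  have hi' := abs_le.1 (key i)
  have hj' := abs_le.1 (key j)
  rw [abs_le]
  constructor <;> linarith [hk.1, hk.2, hi'.1, hi'.2, hj'.1, hj'.2]

theorem dist_le {S : Set (E (m + 1))} (hS : IsCubeAntichain S) {x y : E (m + 1)} (hx : x ∈ S)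
    (hy : y ∈ S) : dist x y ≤ (2 * (m + 1 : ℕ) : ℝ≥0) * dist (dif x) (dif y) := by
  set D := dist (dif x) (dif y) with hD
  have hD0 : 0 ≤ D := dist_nonneg
  rw [EuclideanSpace.dist_eq]
  refine Real.sqrt_le_iff.2 ⟨by positivity, ?_⟩
  have h1 : ∀ k : Fin (m + 1), dist (x k) (y k) ^ 2 ≤ (2 * D) ^ 2 := by
    intro k
    rw [Real.dist_eq]
    exact pow_le_pow_left₀ (abs_nonneg _) (coord_le hS hx hy k) 2
  have h2 : ∑ k : Fin (m + 1), dist (x k) (y k) ^ 2 ≤ (m + 1 : ℕ) * (2 * D) ^ 2 := by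
    refine (Finset.sum_le_sum fun k _ => h1 k).trans (le_of_eq ?_)
    rw [Finset.sum_const, Finset.card_univ, Fintype.card_fin, nsmul_eq_mul]
  refine h2.trans ?_
  push_cast
  have h3 : (1 : ℝ) ≤ (m : ℝ) + 1 := by linarith [Nat.cast_nonneg (α := ℝ) m]
  have h4 : (0 : ℝ) ≤ D ^ 2 := sq_nonneg _
  nlinarith [mul_nonneg (mul_nonneg (by linarith : (0 : ℝ) ≤ (m : ℝ) + 1)
    (by linarith : (0 : ℝ) ≤ (m : ℝ) + 1 - 1)) h4]

theorem measure_lt_top {S : Set (E (m + 1))} (hS : IsCubeAntichain S) :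
    μH[(m : ℝ)] S < ⊤ := by
  set K : ℝ≥0 := (2 * (m + 1 : ℕ) : ℝ≥0) with hK
  rcases S.eq_empty_or_nonempty with rfl | hne
  · simp
  set T : Set (Fin m → ℝ) := dif '' S with hT
  haveI : Nonempty (E (m + 1)) := ⟨hne.some⟩
  set h : (Fin m → ℝ) → E (m + 1) := Function.invFunOn dif S with hh
  have h1 : ∀ u ∈ T, h u ∈ S := fun u hu => Function.invFunOn_mem hu
  have h2 : ∀ u ∈ T, dif (h u) = u := fun u hu => Function.invFunOn_eq hu
  have h3 : LipschitzOnWith K h T := by
    refine LipschitzOnWith.of_dist_le_mul fun u hu v hv => ?_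
    have := dist_le hS (h1 u hu) (h1 v hv)
    rwa [h2 u hu, h2 v hv] at this
  have h4 : h '' T = S := by
    ext x
    constructor
    · rintro ⟨u, hu, rfl⟩; exact h1 u hu
    · intro hx
      refine ⟨dif x, mem_image_of_mem _ hx, ?_⟩
      have h5 := dist_le hS (h1 (dif x) (mem_image_of_mem _ hx)) hx
      rw [h2 _ (mem_image_of_mem _ hx), dist_self, mul_zero] at h5
      exact dist_le_zero.1 h5
  have h5 : μH[(m : ℝ)] T < ⊤ := by
    have h6 : T ⊆ Icc (fun _ => (-1 : ℝ)) (fun _ => 1) := by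
      rintro _ ⟨x, hx, rfl⟩
      constructor
      · intro i
        have := hS.1 x hx i.succ
        have := hS.1 x hx 0
        simp only [dif, mem_Icc] at *
        linarith
      · intro i
        have := hS.1 x hx i.succ
        have := hS.1 x hx 0
        simp only [dif, mem_Icc] at *
        linarith
    refine lt_of_le_of_lt (measure_mono h6) ?_
    have h7 : (μH[(m : ℝ)] : Measure (Fin m → ℝ)) = volume := by
      have := hausdorffMeasure_pi_real (ι := Fin m)
      rwa [Fintype.card_fin] at this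
    rw [h7]
    exact isCompact_Icc.measure_lt_top
  have h6 := h3.hausdorffMeasure_image_le (d := (m : ℝ)) (by positivity)
  rw [h4] at h6
  refine lt_of_le_of_lt h6 (ENNReal.mul_lt_top ?_ h5)
  exact ENNReal.rpow_lt_top_of_nonneg (by positivity) ENNReal.coe_ne_top

/-! ### The antichain -/

section

variable (F : ℝ → ℝ)

/-- The map `F × ⋯ × F`. -/
noncomputable def G (y : Fin (m + 1) → ℝ) : E (m + 1) := WithLp.toLp 2 (fun i => F (y i))

/-- The hyperplane `∑ y_i = 0`. -/
def hyp (m : ℕ) : Set (Fin (m + 1) → ℝ) := {y | ∑ i, y i = 0}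

/-- The part of the hyperplane whose coordinates other than the `j`-th lie in `B`. -/
def part (B : Set ℝ) (j : Fin (m + 1)) : Set (Fin (m + 1) → ℝ) :=
  {y | ∑ i, y i = 0 ∧ ∀ i, i ≠ j → y i ∈ B}

/-- The projection that forgets the `j`-th coordinate. -/
noncomputable def proj (j : Fin (m + 1)) (x : E (m + 1)) : E m :=
  WithLp.toLp 2 (fun i => x (j.succAbove i))

theorem lipschitz_proj (j : Fin (m + 1)) : LipschitzWith 1 (proj j : E (m + 1) → E m) := by
  refine LipschitzWith.of_dist_le_mul fun x y => ?_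
  rw [NNReal.coe_one, one_mul, EuclideanSpace.dist_eq, EuclideanSpace.dist_eq,
    Fin.sum_univ_succAbove (fun i => dist (x i) (y i) ^ 2) j]
  refine Real.sqrt_le_sqrt ?_
  simp only [proj]
  have : 0 ≤ dist (x j) (y j) ^ 2 := sq_nonneg _
  linarith

theorem proj_part (B : Set ℝ) (j : Fin (m + 1)) :
    proj j '' (G F '' part B j) = {z : E m | ∀ i, z i ∈ F '' B} := by
  ext z
  constructor
  · rintro ⟨_, ⟨y, hy, rfl⟩, rfl⟩ i
    exact ⟨y (j.succAbove i), hy.2 _ (Fin.succAbove_ne j i), by simp [proj, G]⟩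
  · intro hz
    choose a ha haz using hz
    refine ⟨G F (j.insertNth (-∑ i, a i) a), ⟨_, ⟨?_, ?_⟩, rfl⟩, ?_⟩
    · rw [Fin.sum_univ_succAbove _ j]
      simp
    · intro i hi
      rcases Fin.eq_self_or_eq_succAbove j i with rfl | ⟨l, rfl⟩
      · exact absurd rfl hi
      · simpa using ha l
    · ext i
      simp [proj, G, haz]

theorem measure_prod {B : Set ℝ} (hB : volume (Icc (0 : ℝ) 1 \ B) = 0) :
    μH[(m : ℝ)] (cube m) ≤ μH[(m : ℝ)] {z : E m | ∀ i, z i ∈ B} := by
  have h1 : cube m ⊆ {z : E m | ∀ i, z i ∈ B} ∪ ⋃ i, {z : E m | z i ∈ Icc (0 : ℝ) 1 \ B} := by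
    intro z hz
    by_cases h : ∀ i, z i ∈ B
    · exact Or.inl h
    · push Not at h
      obtain ⟨i, hi⟩ := h
      exact Or.inr (mem_iUnion.2 ⟨i, hz i, hi⟩)
  have h2 : μH[(m : ℝ)] (⋃ i, {z : E m | z i ∈ Icc (0 : ℝ) 1 \ B}) = 0 := by
    refine measure_iUnion_null fun i => ?_
    refine (Measure.absolutelyContinuous_isAddHaarMeasure (μH[(m : ℝ)] : Measure (E m))
      volume) ?_
    have h3 : (volume : Measure (Fin m → ℝ)) (Function.eval i ⁻¹' (Icc (0 : ℝ) 1 \ B)) = 0 :=
      Measure.pi_eval_preimage_null _ hB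
    have h4 := (PiLp.volume_preserving_ofLp (Fin m)).quasiMeasurePreserving.preimage_null h3
    exact h4
  calc μH[(m : ℝ)] (cube m) ≤ _ := measure_mono h1
    _ ≤ μH[(m : ℝ)] {z : E m | ∀ i, z i ∈ B} + 0 := by
        refine (measure_union_le _ _).trans ?_
        rw [h2]
    _ = _ := add_zero _

variable {F}

theorem continuous_G (hF : Continuous F) : Continuous (G F : (Fin (m + 1) → ℝ) → E (m + 1)) := by
  unfold G
  exact (PiLp.continuous_toLp 2 _).comp (continuous_pi fun i => hF.comp (continuous_apply i))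

theorem injective_G (hF : StrictMono F) :
    Function.Injective (G F : (Fin (m + 1) → ℝ) → E (m + 1)) := by
  intro y y' h
  ext i
  have := congrArg (fun x : E (m + 1) => x i) h
  exact hF.injective (by simpa [G] using this)

theorem measurableSet_part {B : Set ℝ} (hB : MeasurableSet B) (j : Fin (m + 1)) :
    MeasurableSet (part B j) := by
  have h1 : part B j = {y | ∑ i, y i = 0} ∩ ⋂ i, ⋂ (_ : i ≠ j), {y | y i ∈ B} := by
    ext y; simp [part]
  rw [h1]
  refine MeasurableSet.inter ?_ (MeasurableSet.iInter fun i => MeasurableSet.iInter fun _ => ?_)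
  · exact measurableSet_eq_fun (by fun_prop) measurable_const
  · exact measurable_pi_apply i hB

theorem antichain_G (hF : StrictMono F) (h01 : ∀ x, F x ∈ Icc (0 : ℝ) 1) :
    IsCubeAntichain (G F '' hyp m) := by
  constructor
  · rintro _ ⟨y, _, rfl⟩ i
    exact h01 _
  · rintro _ ⟨y, hy, rfl⟩ _ ⟨y', hy', rfl⟩ h
    have h1 : ∀ i, y i ≤ y' i := fun i => hF.le_iff_le.1 (h i)
    have h2 : y = y' := by
      ext i
      have h3 : ∑ i, (y' i - y i) = 0 := by
        rw [Finset.sum_sub_distrib, show ∑ i, y i = 0 from hy, show ∑ i, y' i = 0 from hy', sub_zero]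
      have := (Finset.sum_eq_zero_iff_of_nonneg (fun i _ => sub_nonneg.2 (h1 i))).1 h3 i
        (Finset.mem_univ i)
      linarith
    rw [h2]

/-- The main theorem. -/
theorem exists_antichain (m : ℕ) (hm : 1 ≤ m) : ∃ S : Set (E (m + 1)), IsCubeAntichain S ∧ MeasurableSet S ∧
    μH[(m : ℝ)] S = (m + 1 : ℕ) * μH[(m : ℝ)] (cube m) := by
  obtain ⟨F, hmono, hcont, h01, hnull⟩ := exists_cdf (b := 2 * (m + 1) + 2) (by omega)
  set B := A (2 * (m + 1) + 2) with hB
  have hBm : MeasurableSet B := measurableSet_A _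
  set S0 : Set (E (m + 1)) := G F '' hyp m with hS0
  have hanti : IsCubeAntichain S0 := antichain_G hmono h01
  have hGc : Continuous (G F : (Fin (m + 1) → ℝ) → E (m + 1)) := continuous_G hcont
  have hGi : Function.Injective (G F : (Fin (m + 1) → ℝ) → E (m + 1)) := injective_G hmono
  have hSm : MeasurableSet S0 := by
    refine MeasurableSet.image_of_continuousOn_injOn ?_ hGc.continuousOn hGi.injOn
    exact measurableSet_eq_fun (by fun_prop) measurable_const
  have hTm : ∀ j, MeasurableSet (G F '' part B j : Set (E (m + 1))) := fun j =>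
    (measurableSet_part hBm j).image_of_continuousOn_injOn hGc.continuousOn hGi.injOn
  have hdisj : Pairwise (Function.onFun Disjoint fun j : Fin (m + 1) =>
      (G F '' part B j : Set (E (m + 1)))) := by
    intro i j hij
    rw [Function.onFun, Set.disjoint_left]
    rintro _ ⟨y, hy, rfl⟩ ⟨y', hy', he⟩
    have : y' = y := hGi he
    subst this
    refine sum_ne_zero (n := m + 1) (by omega) (le_refl _) y' (fun k => ?_) hy.1
    by_cases hk : k = i
    · subst hk
      exact hy'.2 _ hij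
    · exact hy.2 _ hk
  have hlow : ((m + 1 : ℕ) : ℝ≥0∞) * μH[(m : ℝ)] (cube m) ≤ μH[(m : ℝ)] S0 := by
    calc ((m + 1 : ℕ) : ℝ≥0∞) * μH[(m : ℝ)] (cube m)
        = ∑ _j : Fin (m + 1), μH[(m : ℝ)] (cube m) := by
          rw [Finset.sum_const, Finset.card_univ, Fintype.card_fin, nsmul_eq_mul]
      _ ≤ ∑ j : Fin (m + 1), μH[(m : ℝ)] (G F '' part B j) := by
          refine Finset.sum_le_sum fun j _ => ?_
          refine (measure_prod hnull).trans ?_
          rw [← proj_part F B j]
          have := (lipschitz_proj j).hausdorffMeasure_image_le (d := (m : ℝ)) (by positivity)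
            (G F '' part B j)
          simpa using this
      _ = μH[(m : ℝ)] (⋃ j, G F '' part B j) := by
          rw [measure_iUnion hdisj hTm, tsum_fintype]
      _ ≤ μH[(m : ℝ)] S0 := by
          refine measure_mono (iUnion_subset fun j => image_mono ?_)
          intro y hy
          exact hy.1
  set ν : Measure (E (m + 1)) := (μH[(m : ℝ)]).restrict S0 with hν
  have hfin : IsFiniteMeasure ν := by
    refine ⟨?_⟩
    rw [hν, Measure.restrict_apply_univ]
    exact measure_lt_top hanti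
  have hm0 : (0 : ℝ) < m := by exact_mod_cast hm
  have hat : ∀ x, ν {x} = 0 := by
    intro x
    have := Measure.noAtoms_hausdorff (E (m + 1)) hm0
    exact le_antisymm ((Measure.restrict_apply_le _ _).trans (by rw [measure_singleton])) bot_le
  obtain ⟨s, hs, hsc⟩ := exists_subset_measure_eq ν hat (((m + 1 : ℕ) : ℝ≥0∞) *
    μH[(m : ℝ)] (cube m)) (by rw [hν, Measure.restrict_apply_univ]; exact hlow)
  refine ⟨s ∩ S0, ⟨fun x hx => hanti.1 x hx.2, fun x hx y hy => hanti.2 x hx.2 y hy.2⟩,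
    hs.inter hSm, ?_⟩
  rw [← hsc, hν, Measure.restrict_apply hs]

end

/-! ### The measure of the facets is finite and positive -/

theorem measure_cube_pos (m : ℕ) : 0 < μH[(m : ℝ)] (cube m) := by
  have h1 : IsOpen {z : E m | ∀ i, z i ∈ Ioo (0 : ℝ) 1} := by
    have : {z : E m | ∀ i, z i ∈ Ioo (0 : ℝ) 1} = ⋂ i, {z : E m | z i ∈ Ioo (0 : ℝ) 1} := by
      ext z; simp
    rw [this]
    exact isOpen_iInter_of_finite fun i => isOpen_Ioo.preimage (by fun_prop)
  have h2 : ({z : E m | ∀ i, z i ∈ Ioo (0 : ℝ) 1}).Nonempty :=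
    ⟨WithLp.toLp 2 (fun _ => 1 / 2), fun i => by constructor <;> norm_num⟩
  refine lt_of_lt_of_le (h1.measure_pos μH[(m : ℝ)] h2) (measure_mono fun z hz i => ?_)
  exact Ioo_subset_Icc_self (hz i)

theorem measure_cube_lt_top (m : ℕ) : μH[(m : ℝ)] (cube m) < ⊤ := by
  have h1 : IsClosed (cube m) := by
    have : cube m = ⋂ i, {z : E m | z i ∈ Icc (0 : ℝ) 1} := by
      ext z; simp [cube]
    rw [this]
    exact isClosed_iInter fun i => isClosed_Icc.preimage (by fun_prop)
  have h2 : Bornology.IsBounded (cube m) := by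
    rw [Metric.isBounded_iff_subset_closedBall 0]
    refine ⟨Real.sqrt m, fun z hz => ?_⟩
    rw [mem_closedBall_zero_iff, EuclideanSpace.norm_eq]
    refine Real.sqrt_le_sqrt ?_
    calc ∑ i, ‖z i‖ ^ 2 ≤ ∑ _i : Fin m, (1 : ℝ) := by
          refine Finset.sum_le_sum fun i _ => ?_
          rw [Real.norm_of_nonneg (hz i).1]
          exact pow_le_one₀ (hz i).1 (hz i).2
      _ = m := by simp
  exact (Metric.isCompact_of_isClosed_isBounded h1 h2).measure_lt_top

end Pool.Agent.X160.Af
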